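import Pool.Agent.H300R2.EC.All

/-!
The Hardy-Littlewood asymptotic formula, with the exact constant of the conjecture, for almost all
quadratic polynomials `a m² + b m + c` of height at most `H` and all `x` between `H^(1+ε)` and
`H³ / (log H)^B`.
-/

set_option autoImplicit false

namespace Pool.Agent.Results.MP_a1177c_nt.AlmostAllExact

open Finset

/-- `π_f(x)`: the number of positive integers `m` with `a m² + b m + c` prime and less than `x` -/
noncomputable def piF (a b c : ℤ) (x : ℝ) : ℝ :=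
  (Set.ncard {m : ℕ | 1 ≤ m ∧ Nat.Prime (a * (m : ℤ) ^ 2 + b * m + c).toNat ∧
    ((a * (m : ℤ) ^ 2 + b * m + c : ℤ) : ℝ) < x} : ℝ)

/-- the right-hand side of the conjecture, `ε C / √a * √x / log x * ∏_{p > 2, p ∣ gcd(a,b)} p / (p-1)`,
where `C` is the value of the infinite product -/
noncomputable def mainTerm (a b : ℤ) (C x : ℝ) : ℝ :=
  (if Even (a + b) then (2 : ℝ) else 1) * C / Real.sqrt (a : ℝ) * (Real.sqrt x / Real.log x) *
    ∏ p ∈ (Nat.primeFactors (Int.gcd a b)).filter (fun p : ℕ => 2 < p), ((p : ℝ) / ((p : ℝ) - 1))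

/-- **Hardy and Littlewood's asymptotic formula for almost all quadratic polynomials.** Let
`ε > 0`. There is a constant `C₁` such that for every `U`, with `B` and `H` large in terms of `ε`
and `U`, there is a set `T` of at most `H³ / (log H)^U` triples such that for all integers
`a, b, c` with `0 < a ≤ H`, `|b| ≤ H`, `|c| ≤ H`, `(a, b, c) ∉ T`, `gcd(a, b, c) = 1` and `a + b`
and `c` not both even: the product `∏_{p > 2, p ∤ a} (1 - (D/p)/(p-1))`, `D = b² - 4ac`, taken over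
the primes in increasing order, converges to some `C > 0`, and for ALL `x` with
`H^(1+ε) ≤ x ≤ H³ / (log H)^B`,
`π_f(x) = (1 + θ C₁ / log H) * ε(a, b) C / √a * √x / log x * ∏_{p > 2, p ∣ gcd(a,b)} p / (p-1)`
with `|θ| ≤ 1`. -/
theorem result (ε : ℝ) (hε : 0 < ε) : ∃ C1 : ℝ, ∀ U : ℕ, ∃ B H0 : ℕ, ∀ H : ℕ, H0 ≤ H →
    ∃ T : Finset (ℤ × ℤ × ℤ), (T.card : ℝ) ≤ (H : ℝ) ^ 3 / Real.log H ^ U ∧
    ∀ a b c : ℤ, 0 < a → a ≤ H → |b| ≤ H → |c| ≤ H → (a, b, c) ∉ T →
    Int.gcd (Int.gcd a b) c = 1 → ¬ (Even (a + b) ∧ Even c) →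
    ∃ C : ℝ, 0 < C ∧
    Filter.Tendsto (fun N : ℕ =>
      ∏ p ∈ (range N).filter (fun p : ℕ => Nat.Prime p ∧ 2 < p ∧ ¬ ((p : ℤ) ∣ a)),
        (1 - ((jacobiSym (b ^ 2 - 4 * a * c) p : ℤ) : ℝ) / ((p : ℝ) - 1)))
      Filter.atTop (nhds C) ∧
    ∀ x : ℝ, (H : ℝ) ^ (1 + ε) ≤ x → x * Real.log H ^ B ≤ (H : ℝ) ^ 3 →
    |piF a b c x - mainTerm a b C x| ≤ C1 / Real.log H * mainTerm a b C x :=
  Pool.Agent.H300R2.EC.hl_final ε hε

end Pool.Agent.Results.MP_a1177c_nt.AlmostAllExact
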