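import Pool.Agent.H359R3.MainQuad

/-!
For every monic quadratic `f = t^2+bt+c` whose discriminant is not a perfect square, and for each
sign `ε`, for arbitrarily large `X` at least `X / (log X)^38` of the integers `n` in `(X, 2X]`
satisfy `f(n) = s^2 m` with `s ≤ (log X)^41` and `μ(m) = ε`.
-/

theorem Pool.Agent.Results.MP_a1177c_nt.NearSquarefreeBothSigns.result
    (b c : ℤ) (hsq : ¬ IsSquare (b ^ 2 - 4 * c)) (ε : ℤ) (hε : ε = 1 ∨ ε = -1) (X0 : ℕ) :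
    ∃ X : ℕ, X0 ≤ X ∧ (X : ℝ) / Real.log X ^ 38 ≤
      (Set.ncard {n : ℕ | X < n ∧ n ≤ 2 * X ∧ ∃ s m : ℕ, (n : ℤ) ^ 2 + b * n + c = s ^ 2 * m ∧
        (s : ℝ) ≤ Real.log X ^ 41 ∧ ArithmeticFunction.moebius m = ε} : ℝ) := by
  let f : ℕ → ZMod 2 := fun n => ((ArithmeticFunction.cardFactors n : ℕ) : ZMod 2)
  have hf : ∀ m n : ℕ, m ≠ 0 → n ≠ 0 → f (m * n) = f m + f n := by
    intro m n hm hn
    simp only [f]
    rw [ArithmeticFunction.cardFactors_mul hm hn]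
    push_cast
    rfl
  have hprime : ∀ q : ℕ, q.Prime → f q = 1 := by
    intro q hq
    simp only [f]
    rw [ArithmeticFunction.cardFactors_apply_prime hq]
    simp
  have hmu : ∀ (κ : ZMod 2) (e : ℤ), (κ = 0 ∧ e = 1 ∨ κ = 1 ∧ e = -1) → ∀ m : ℕ,
      Squarefree m → f m = κ → ArithmeticFunction.moebius m = e := by
    intro κ e hκe m hm hfm
    rw [ArithmeticFunction.moebius_apply_of_squarefree hm]
    simp only [f] at hfm
    rcases hκe with ⟨rfl, rfl⟩ | ⟨rfl, rfl⟩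
    · rw [ZMod.natCast_eq_zero_iff] at hfm
      exact Even.neg_one_pow (even_iff_two_dvd.mpr hfm)
    · apply Odd.neg_one_pow
      rcases Nat.even_or_odd (ArithmeticFunction.cardFactors m) with he | ho
      · exfalso
        have : ((ArithmeticFunction.cardFactors m : ℕ) : ZMod 2) = 0 := by
          rw [ZMod.natCast_eq_zero_iff]
          exact he.two_dvd
        rw [this] at hfm
        exact zero_ne_one hfm
      · exact ho
  have main : ∀ (κ : ZMod 2) (e : ℤ), (κ = 0 ∧ e = 1 ∨ κ = 1 ∧ e = -1) →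
      ∃ X : ℕ, X0 ≤ X ∧ (X : ℝ) / Real.log X ^ 38 ≤
      (Set.ncard {n : ℕ | X < n ∧ n ≤ 2 * X ∧ ∃ s m : ℕ, (n : ℤ) ^ 2 + b * n + c = s ^ 2 * m ∧
        (s : ℝ) ≤ Real.log X ^ 41 ∧ ArithmeticFunction.moebius m = e} : ℝ) := by
    intro κ e hκe
    obtain ⟨X, hX, hcount⟩ := H359R3.main_quad b c hsq f hf hprime κ X0
    refine ⟨X, hX, hcount.trans ?_⟩
    have hfin : {n : ℕ | X < n ∧ n ≤ 2 * X ∧ ∃ s m : ℕ, (n : ℤ) ^ 2 + b * n + c = s ^ 2 * m ∧
        (s : ℝ) ≤ Real.log X ^ 41 ∧ ArithmeticFunction.moebius m = e}.Finite := by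
      apply Set.Finite.subset (Set.finite_Icc 0 (2 * X))
      intro n hn
      exact ⟨Nat.zero_le _, hn.2.1⟩
    have hsub : H359R3.QS b c f κ X ⊆ {n : ℕ | X < n ∧ n ≤ 2 * X ∧ ∃ s m : ℕ,
        (n : ℤ) ^ 2 + b * n + c = s ^ 2 * m ∧
        (s : ℝ) ≤ Real.log X ^ 41 ∧ ArithmeticFunction.moebius m = e} := by
      intro n hn
      obtain ⟨h1, h2, s, m, h3, h4, h5, h6⟩ := hn
      exact ⟨h1, h2, s, m, h3, h5, hmu κ e hκe m h4 h6⟩
    exact_mod_cast Set.ncard_le_ncard hsub hfin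
  rcases hε with rfl | rfl
  · exact main 0 1 (Or.inl ⟨rfl, rfl⟩)
  · exact main 1 (-1) (Or.inr ⟨rfl, rfl⟩)
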