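import Pool.Agent.H359R6.Fin

set_option autoImplicit false

namespace Pool.Agent.Results.MP_a1177c_nt.OddRoughValues

open Classical in
/-- Let `f(m) = a m ^ 2 + b m + c` with `a ≥ 1` and `gcd(a, b) = 1`. There is a finite set `D` of
positive integers whose prime factors divide `6 a`, equal to `{1, a}` if (`a` is even or `b`, `c` are
odd) and (`3 ∣ a` or `b ^ 2 - 4 a c` is not `1` modulo `3`), such that for every `ε > 0` there are
`δ > 0`, `R`, `X₀` such that for every set `P` of primes and every `X ≥ X₀` at least `X ^ (1 - ε)`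
integers `m ≤ X` have `f(m) = d u` with `d ∈ D`, all prime factors of `u` larger than `X ^ δ`, at
most `R` prime factors, and the number of prime factors belonging to `P` of `f(m)` has the parity of
that of `a`. -/
theorem result (a : ℕ) (b c : ℤ) (ha : 0 < a) (hab : IsCoprime (a : ℤ) b) :
    ∃ D : Finset ℕ, (∀ d ∈ D, 0 < d ∧ ∀ p : ℕ, p.Prime → p ∣ d → p ∣ 6 * a) ∧
      ((2 ∣ a ∨ (Odd b ∧ Odd c)) → (3 ∣ a ∨ ¬ (3 : ℤ) ∣ b ^ 2 - 4 * a * c - 1) → D = {1, a}) ∧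
      ∀ ε : ℝ, 0 < ε → ∃ δ : ℝ, 0 < δ ∧ ∃ R X₀ : ℕ, ∀ (P : Set ℕ) (X : ℕ), X₀ ≤ X →
        (X : ℝ) ^ (1 - ε) ≤ (({m : ℕ | m ≤ X ∧ ∃ d ∈ D, ∃ u : ℕ,
          (a : ℤ) * (m : ℤ) ^ 2 + b * m + c = d * u ∧ 0 < u ∧
          (∀ p : ℕ, p.Prime → p ∣ u → (X : ℝ) ^ δ < p) ∧
          (d * u).primeFactorsList.length ≤ R ∧
          (d * u).primeFactorsList.countP (fun p => decide (p ∈ P)) % 2 =
            a.primeFactorsList.countP (fun p => decide (p ∈ P)) % 2} : Set ℕ).ncard : ℝ) := by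
  obtain ⟨D, h1, h2, h3⟩ := Pool.Agent.H359R6.main a b c ha hab
  refine ⟨D, h1, h2, fun ε hε => ?_⟩
  obtain ⟨δ, hδ, R, X₀, h4⟩ := h3 ε hε
  refine ⟨δ, hδ, R, X₀, fun P X hX => ?_⟩
  exact h4 (fun n => n.primeFactorsList.countP (fun p => decide (p ∈ P)))
    (Pool.Agent.H359R6.addF_count P) X hX

end Pool.Agent.Results.MP_a1177c_nt.OddRoughValues
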