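import Mathlib
import Pool.Agent.H373R2.T4.NearMainG
import Pool.Agent.H373R2.T4.Quad

/-!
Fix `a > 0` and `b`. For a positive proportion of the constant terms `c ≤ C` (and of the `k`-tuples of constant terms) the
number of primes `a m^2 + b m + c` below `X` is at least `θ` times the number predicted by Hardy and Littlewood, where `θ < 1`
is arbitrary and `C` is only required to be at least `X^(1/4+δ)`.
-/

namespace Pool.Agent.Results.MP_a1177c_nt.ShortShiftProportion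
open Finset Polynomial
open Pool.Agent.H373R2.T4
open Pool.Agent.H373R2.BH (BHFamily omegaP eulerProduct primeCount)

/-- the number of positive integers `m` such that all `a m^2 + b m + c_i` are primes less than `X` -/
noncomputable def piF (a b : ℤ) {k : ℕ} (c : Fin k → ℤ) (X : ℝ) : ℕ :=
  Set.ncard {m : ℕ | 1 ≤ m ∧ ∀ i, Nat.Prime (a * (m : ℤ) ^ 2 + b * m + c i).toNat ∧ ((a * (m : ℤ) ^ 2 + b * m + c i : ℤ) : ℝ) < X}

lemma count_le (a b : ℤ) (ha : 0 < a) {k : ℕ} (hk : 1 ≤ k) (h : Fin k → ℕ) (x : ℕ) (X : ℝ)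
    (hX : ∀ i, (a : ℝ) * (x : ℝ) ^ 2 + |(b : ℝ)| * x + h i < X) :
    primeCount (fun i => qp a b + C (h i : ℤ)) x ≤ piF a b (fun i => (h i : ℤ)) X := by
  classical
  unfold primeCount piF
  rw [← Set.ncard_coe_finset]
  have har : (1 : ℝ) ≤ a := by exact_mod_cast ha
  apply Set.ncard_le_ncard
  · intro m hm
    rw [mem_coe, mem_filter, mem_Icc] at hm
    obtain ⟨⟨h1, h2⟩, h3⟩ := hm
    refine ⟨h1, fun i => ?_⟩
    have h4 := h3 i
    rw [qp_eval] at h4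
    refine ⟨h4, lt_of_le_of_lt ?_ (hX i)⟩
    have hmx : (m : ℝ) ≤ x := by exact_mod_cast h2
    have hm0 : (0 : ℝ) ≤ m := Nat.cast_nonneg m
    push_cast
    have h5 : (a : ℝ) * (m : ℝ) ^ 2 ≤ a * (x : ℝ) ^ 2 := by gcongr
    have h6 : (b : ℝ) * m ≤ |(b : ℝ)| * x := by
      calc (b : ℝ) * m ≤ |(b : ℝ)| * m := mul_le_mul_of_nonneg_right (le_abs_self _) hm0
        _ ≤ _ := mul_le_mul_of_nonneg_left hmx (abs_nonneg _)
    linarith
  · have i0 : Fin k := ⟨0, by omega⟩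
    obtain ⟨M, hM⟩ := exists_nat_gt (|(b : ℝ)| + 1 + |X|)
    apply (Set.finite_le_nat M).subset
    intro m hm
    obtain ⟨_, h2⟩ := hm
    have h3 := (h2 i0).2
    push_cast at h3
    show m ≤ M
    by_contra hcon
    push Not at hcon
    have h4 : (M : ℝ) < m := by exact_mod_cast hcon
    have h5 : |(b : ℝ)| + 1 + |X| < m := by linarith
    have h6 : -|(b : ℝ)| ≤ b := neg_abs_le _
    have h7 : X ≤ |X| := le_abs_self X
    have h8 : (0 : ℝ) ≤ h i0 := Nat.cast_nonneg _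
    have h9 := abs_nonneg (b : ℝ)
    have h10 := abs_nonneg X
    have hm0 : (0 : ℝ) < m := by linarith
    have h11 : (m : ℝ) ^ 2 ≤ a * (m : ℝ) ^ 2 := le_mul_of_one_le_left (by positivity) har
    have h12 : -|(b : ℝ)| * m ≤ b * m := mul_le_mul_of_nonneg_right h6 hm0.le
    have h13 : (m : ℝ) * (|(b : ℝ)| + 1) ≤ m * m := mul_le_mul_of_nonneg_left (by linarith) hm0.le
    nlinarith

open Classical in
theorem result (a b : ℤ) (ha : 0 < a) :
    (∀ k : ℕ, 1 ≤ k → ∀ δ : ℝ, 0 < δ → ∀ θ : ℝ, 0 < θ → θ < 1 → ∃ κ : ℝ, 0 < κ ∧ ∃ y₀ : ℕ, ∃ X₀ : ℝ, ∀ X : ℝ, X₀ ≤ X →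
      ∀ C : ℕ, X ^ (1 / 4 + δ) ≤ C → C ≤ κ * X → ∀ z : ℕ, y₀ ≤ z → z ^ 6 ≤ C →
      κ * (C : ℝ) ^ k ≤ #((Fintype.piFinset fun _ : Fin k => Icc 1 C).filter (fun c : Fin k → ℕ =>
        Function.Injective c ∧ (∀ i, Admissible a b (c i)) ∧
        θ * HL a b (fun i => (c i : ℤ)) z / Real.sqrt a * (Real.sqrt X / (Real.log X) ^ k) ≤ piF a b (fun i => (c i : ℤ)) X ∧
        κ * (Real.sqrt X / (Real.log X) ^ k) ≤ piF a b (fun i => (c i : ℤ)) X))) ∧
    (∀ (c : ℤ) (z : ℕ), Admissible a b c → 2 ≤ z → HL a b (fun _ : Fin 1 => c) z = (if Even (a + b) then (2 : ℝ) else 1) *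
      (∏ p ∈ (range (z + 1)).filter (fun p => Nat.Prime p ∧ 2 < p ∧ ¬ (p : ℤ) ∣ a),
        (1 - (jacobiSym (b ^ 2 - 4 * a * c) p : ℝ) / ((p : ℝ) - 1))) *
      ∏ p ∈ (range (z + 1)).filter (fun p => Nat.Prime p ∧ 2 < p ∧ (p : ℤ) ∣ a ∧ (p : ℤ) ∣ b), ((p : ℝ) / ((p : ℝ) - 1))) := by
  refine ⟨fun k hk δ hδ θ hθ0 hθ1 => ?_, fun c z hadm hz => HL_one a b c z hadm hz⟩
  have har : (1 : ℝ) ≤ a := by exact_mod_cast ha
  have ha0 : (0 : ℝ) < a := by linarith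
  have hsa0 : 0 < Real.sqrt a := Real.sqrt_pos.2 ha0
  have hsa1 : 1 ≤ Real.sqrt a := by rw [Real.one_le_sqrt]; exact har
  set δ' : ℝ := min δ (1 / 8) with hδ'
  have hδ'0 : 0 < δ' := by positivity
  have hδ'1 : δ' ≤ 1 / 8 := min_le_right _ _
  have hδ'2 : δ' ≤ δ := min_le_left _ _
  set θ' : ℝ := (1 + θ) / 2 with hθ'
  have hθ'1 : θ' < 1 := by rw [hθ']; linarith
  have hθ'0 : 0 < θ' := by linarith
  set ε₂ : ℝ := (1 - θ) / 4 with hε₂
  have hε₂0 : 0 < ε₂ := by rw [hε₂]; linarith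
  have hε₂1 : ε₂ ≤ 1 / 4 := by rw [hε₂]; linarith
  have hθθ' : θ ≤ θ' * (1 - 2 * ε₂) := by
    rw [hθ', hε₂]; nlinarith
  have hnd := qp_natDegree a b ha.ne'
  obtain ⟨c, hc, y₀, x₀, hmain⟩ := shift_near k hk (qp a b) (by rw [hnd]) (by rw [qp_leadingCoeff a b ha.ne']; exact ha)
    (1 / 4 - δ') (by linarith) (by linarith) (by rw [hnd]; push_cast; linarith) (by rw [hnd]; push_cast; linarith) θ' hθ'0 hθ'1
  rw [hnd] at hmain
  set κ : ℝ := min (min c (c / (2 * Real.sqrt a))) (min (1 / (16 * a)) (ε₂ / 4)) with hκ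
  have hκ0 : 0 < κ := by positivity
  have hκ1 : κ ≤ c := (min_le_left _ _).trans (min_le_left _ _)
  have hκ2 : κ ≤ c / (2 * Real.sqrt a) := (min_le_left _ _).trans (min_le_right _ _)
  have hκ3 : κ ≤ 1 / (16 * a) := (min_le_right _ _).trans (min_le_left _ _)
  have hκ4 : κ ≤ ε₂ / 4 := (min_le_right _ _).trans (min_le_right _ _)
  set M : ℝ := 2 * x₀ + 2 / ε₂ + 6 + 4 * |(b : ℝ)| / ε₂ with hM
  have hM0 : 0 < M := by positivity
  refine ⟨κ, hκ0, y₀, a * M ^ 2, fun X hX C hC1 hC2 z hz hz6 => ?_⟩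
  have hX0 : 0 < X := lt_of_lt_of_le (by positivity) hX
  set Y : ℝ := Real.sqrt (X / a) with hY
  have hYM : M ≤ Y := by
    rw [hY]
    apply Real.le_sqrt_of_sq_le
    rw [le_div_iff₀ ha0]; linarith
  have hYX : Real.sqrt X = Real.sqrt a * Y := by
    rw [hY, ← Real.sqrt_mul ha0.le]; congr 1; field_simp
  have hY0 : 0 < Y := by linarith
  have hY2 : a * Y ^ 2 = X := by
    rw [hY, Real.sq_sqrt (by positivity)]; field_simp
  have hYsX : Y ≤ Real.sqrt X := by rw [hYX]; nlinarith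
  have hM1 : 2 * (x₀ : ℝ) ≤ M := by
    rw [hM]
    have h1 : 0 ≤ 2 / ε₂ := by positivity
    have h2 : 0 ≤ 4 * |(b : ℝ)| / ε₂ := by positivity
    linarith
  have hM2 : 2 / ε₂ ≤ M := by
    rw [hM]
    have h2 : 0 ≤ 4 * |(b : ℝ)| / ε₂ := by positivity
    have h3 : (0 : ℝ) ≤ x₀ := Nat.cast_nonneg _
    linarith
  have hM3 : 4 * |(b : ℝ)| / ε₂ ≤ M := by
    rw [hM]
    have h1 : 0 ≤ 2 / ε₂ := by positivity
    have h3 : (0 : ℝ) ≤ x₀ := Nat.cast_nonneg _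
    linarith
  have hM4 : 6 ≤ M := by
    rw [hM]
    have h1 : 0 ≤ 2 / ε₂ := by positivity
    have h2 : 0 ≤ 4 * |(b : ℝ)| / ε₂ := by positivity
    have h3 : (0 : ℝ) ≤ x₀ := Nat.cast_nonneg _
    linarith
  set x : ℕ := ⌊(1 - ε₂) * Y⌋₊ with hx
  have hx1 : (x : ℝ) ≤ (1 - ε₂) * Y := Nat.floor_le (mul_nonneg (by linarith) hY0.le)
  have hx2 : (1 - 2 * ε₂) * Y ≤ x := by
    have h1 := (Nat.lt_floor_add_one ((1 - ε₂) * Y)).le
    rw [← hx] at h1
    have h2 : 2 ≤ ε₂ * Y := by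
      have h3 : 2 / ε₂ ≤ Y := hM2.trans hYM
      rw [div_le_iff₀ hε₂0] at h3
      linarith
    linarith
  have hx3 : Y / 2 ≤ x := by
    refine le_trans ?_ hx2
    nlinarith
  have hxx₀ : x₀ ≤ x := by
    have : (x₀ : ℝ) ≤ x := by linarith
    exact_mod_cast this
  have hx3' : (3 : ℝ) ≤ x := by linarith
  have hx0 : (0 : ℝ) < x := by linarith
  have hxY : (x : ℝ) ≤ Y := by nlinarith
  have hxsX : (x : ℝ) ≤ Real.sqrt X := hxY.trans hYsX
  have hX1 : 1 ≤ X := by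
    rw [← hY2]
    have : 1 ≤ Y ^ 2 := by nlinarith
    nlinarith
  have hlogx : 0 < Real.log x := Real.log_pos (by linarith)
  have hlogX : 2 * Real.log x ≤ Real.log X := by
    have h1 : Real.log ((x : ℝ) ^ 2) ≤ Real.log X := by
      apply Real.log_le_log (by positivity)
      calc (x : ℝ) ^ 2 ≤ (Real.sqrt X) ^ 2 := pow_le_pow_left₀ hx0.le hxsX 2
        _ = X := Real.sq_sqrt hX0.le
    rw [Real.log_pow] at h1
    push_cast at h1
    exact h1
  have hlogX0 : 0 < Real.log X := by linarith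
  -- the range of C
  have hC3 : (x : ℝ) ^ (((2 : ℕ) : ℝ) - 1 - ((2 : ℕ) : ℝ) * (1 / 4 - δ')) ≤ C := by
    have e1 : ((2 : ℕ) : ℝ) - 1 - ((2 : ℕ) : ℝ) * (1 / 4 - δ') = 1 / 2 + 2 * δ' := by push_cast; ring
    rw [e1]
    calc (x : ℝ) ^ (1 / 2 + 2 * δ') ≤ (Real.sqrt X) ^ (1 / 2 + 2 * δ') := Real.rpow_le_rpow hx0.le hxsX (by linarith)
      _ = X ^ (1 / 4 + δ') := by
          rw [Real.sqrt_eq_rpow, ← Real.rpow_mul hX0.le]; congr 1; ring
      _ ≤ X ^ (1 / 4 + δ) := Real.rpow_le_rpow_of_exponent_le hX1 (by linarith)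
      _ ≤ C := hC1
  have hC4 : 2 ^ 2 * C ≤ x ^ 2 := by
    have h1 : (2 : ℝ) ^ 2 * C ≤ (x : ℝ) ^ 2 := by
      have h2 : κ * X ≤ 1 / (16 * a) * X := mul_le_mul_of_nonneg_right hκ3 hX0.le
      have h3 : 1 / (16 * (a : ℝ)) * X = Y ^ 2 / 16 := by rw [← hY2]; field_simp
      have h4 : (Y / 2) ^ 2 ≤ (x : ℝ) ^ 2 := pow_le_pow_left₀ (by positivity) hx3 2
      have h5 : (Y / 2) ^ 2 = Y ^ 2 / 4 := by ring
      rw [h5] at h4
      linarith
    exact_mod_cast h1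
  refine (mul_le_mul_of_nonneg_right hκ1 (by positivity)).trans ((hmain x hxx₀ C hC3 hC4 z hz hz6).trans ?_)
  rw [Nat.cast_le]
  apply card_le_card
  intro h hh
  rw [mem_filter] at hh ⊢
  obtain ⟨hB, h1, h2, h3⟩ := hh
  rw [HL_eq] at h2
  refine ⟨hB, ?_, fun i => admissible_of_BH a b ha h h1 i, ?_, ?_⟩
  · intro i j hij
    apply h1.1
    simp only [hij]
  all_goals
    have hle : (primeCount (fun i => qp a b + Polynomial.C (h i : ℤ)) x : ℝ) ≤ piF a b (fun i => (h i : ℤ)) X := by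
      rw [Nat.cast_le]
      apply count_le a b ha hk
      intro i
      have h4 : (h i : ℝ) ≤ C := by
        have := (mem_Icc.1 (Fintype.mem_piFinset.1 hB i)).2
        exact_mod_cast this
      have h5 : (a : ℝ) * (x : ℝ) ^ 2 ≤ (1 - ε₂) * X := by
        calc (a : ℝ) * (x : ℝ) ^ 2 ≤ a * ((1 - ε₂) * Y) ^ 2 := by gcongr
          _ = (1 - ε₂) * ((1 - ε₂) * (a * Y ^ 2)) := by ring
          _ = (1 - ε₂) * ((1 - ε₂) * X) := by rw [hY2]
          _ ≤ (1 - ε₂) * (1 * X) := by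
              apply mul_le_mul_of_nonneg_left _ (by linarith)
              exact mul_le_mul_of_nonneg_right (by linarith) hX0.le
          _ = _ := by ring
      have h6 : |(b : ℝ)| * x ≤ ε₂ / 4 * X := by
        have h7 : 4 * |(b : ℝ)| / ε₂ ≤ Real.sqrt X := hM3.trans (hYM.trans hYsX)
        rw [div_le_iff₀ hε₂0] at h7
        have h8 : |(b : ℝ)| ≤ ε₂ / 4 * Real.sqrt X := by linarith
        calc |(b : ℝ)| * x ≤ (ε₂ / 4 * Real.sqrt X) * Real.sqrt X := by gcongr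
          _ = ε₂ / 4 * (Real.sqrt X * Real.sqrt X) := by ring
          _ = _ := by rw [Real.mul_self_sqrt hX0.le]
      have h7 : (C : ℝ) ≤ ε₂ / 4 * X := hC2.trans (mul_le_mul_of_nonneg_right hκ4 hX0.le)
      have h8 : 0 < ε₂ * X := by positivity
      linarith
  · refine le_trans ?_ (h2.trans hle)
    have hHL := HL_nonneg a b (fun i => (h i : ℤ)) z
    calc θ * HL a b (fun i => (h i : ℤ)) z / Real.sqrt a * (Real.sqrt X / (Real.log X) ^ k) =
          θ * HL a b (fun i => (h i : ℤ)) z * (Y / (Real.log X) ^ k) := by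
          rw [hYX]; field_simp
      _ ≤ (θ' * (1 - 2 * ε₂)) * HL a b (fun i => (h i : ℤ)) z * (Y / (Real.log X) ^ k) := by gcongr
      _ = θ' * HL a b (fun i => (h i : ℤ)) z * (((1 - 2 * ε₂) * Y) / (Real.log X) ^ k) := by ring
      _ ≤ θ' * HL a b (fun i => (h i : ℤ)) z * (x / (((2 : ℕ) : ℝ) * Real.log x) ^ k) := by
          push_cast
          gcongr
  · refine le_trans ?_ (h3.trans hle)
    have h9 : κ * Real.sqrt a ≤ c / 2 := by
      rw [le_div_iff₀ (by positivity)] at hκ2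
      linarith
    calc κ * (Real.sqrt X / (Real.log X) ^ k) = (κ * Real.sqrt a) * (Y / (Real.log X) ^ k) := by rw [hYX]; ring
      _ ≤ (c / 2) * (Y / (Real.log X) ^ k) := mul_le_mul_of_nonneg_right h9 (by positivity)
      _ = c * ((Y / 2) / (Real.log X) ^ k) := by ring
      _ ≤ c * (x / (Real.log x) ^ k) := by
          apply mul_le_mul_of_nonneg_left _ hc.le
          apply div_le_div₀ hx0.le hx3 (by positivity)
          exact pow_le_pow_left₀ hlogx.le (by linarith) k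

end Pool.Agent.Results.MP_a1177c_nt.ShortShiftProportion
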